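import Mathlib

/-!
# Twice Fermat primes and the sets `K_c` of Harborth

For `c = 2 ^ j - 1`, `j ≥ 3`, every number `2 q` with a Fermat prime `q > 3` belongs to `K_c`.
So there are infinitely many `c` with `S ⊆ K_c`, without any assumption on the number of Fermat
primes.
-/

set_option autoImplicit false

namespace Pool.Agent.Results.MP_82795f_nt.InfinitelyManyC

open Finset

/-- The set `K_c`: the positive integers `k` such that `n` divides `choose n (k - c n)` for every
integer `n` with `k / (c + 1) ≤ n ≤ k / c`. -/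
def K (c : ℕ) : Set ℕ :=
  {k | 0 < k ∧ ∀ n : ℕ, k ≤ (c + 1) * n → c * n ≤ k → n ∣ n.choose (k - c * n)}

/-- The set `S` of the numbers `2 q`, where `q > 3` is a Fermat prime. -/
def S : Set ℕ := {k | ∃ q : ℕ, q.Prime ∧ (∃ m : ℕ, q = 2 ^ 2 ^ m + 1) ∧ 3 < q ∧ k = 2 * q}

/-- the binomial coefficients `choose (2 ^ s + a) b` modulo `2` -/
lemma even_step {s a b : ℕ} (h0 : 2 ∣ a.choose b) (h1 : 2 ^ s ≤ b → 2 ∣ a.choose (b - 2 ^ s)) :
    2 ∣ (2 ^ s + a).choose b := by
  rw [Nat.add_choose_eq]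
  refine Finset.dvd_sum fun x hx => ?_
  rw [HasAntidiagonal.mem_antidiagonal] at hx
  by_cases hx0 : x.1 = 0
  · have : x.2 = b := by omega
    rw [this]
    exact Dvd.dvd.mul_left h0 _
  by_cases hx1 : x.1 = 2 ^ s
  · have h2 : x.2 = b - 2 ^ s := by omega
    rw [h2]
    exact Dvd.dvd.mul_left (h1 (by omega)) _
  · exact Dvd.dvd.mul_right (Nat.prime_two.dvd_choose_pow hx0 hx1) _

/-- the main parity statement -/
lemma parity (j : ℕ) (hj : 3 ≤ j) (t : ℕ) (ht : t ≤ 1) : ∀ s M : ℕ, 1 ≤ M →
    2 ∣ (2 ^ s + (M - t)).choose (2 ^ j * M - 1) := by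
  have hJ : 8 ≤ 2 ^ j := by
    calc 8 = 2 ^ 3 := by norm_num
      _ ≤ 2 ^ j := Nat.pow_le_pow_right (by norm_num) hj
  intro s
  induction s using Nat.strong_induction_on with
  | _ s ih =>
  intro M hM
  have hs : 1 ≤ 2 ^ s := Nat.one_le_two_pow
  have h8 : 8 * M ≤ 2 ^ j * M := Nat.mul_le_mul_right _ hJ
  rcases Nat.lt_or_ge M (2 ^ s) with hlt | hge
  · apply even_step
    · rw [Nat.choose_eq_zero_of_lt (by omega)]
      exact dvd_zero _
    · intro hb
      rcases Nat.lt_or_ge (M - t) (2 ^ j * M - 1 - 2 ^ s) with h | h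
      · rw [Nat.choose_eq_zero_of_lt h]
        exact dvd_zero _
      · have hsj : j ≤ s := by
          by_contra hcon
          have h1 : 2 ^ s * 2 ≤ 2 ^ j := by
            calc 2 ^ s * 2 = 2 ^ (s + 1) := by ring
              _ ≤ 2 ^ j := Nat.pow_le_pow_right (by norm_num) (by omega)
          have h2 : 2 ^ j * M ≤ 2 ^ s + 1 + M := by omega
          have h3 : 2 ^ j + 7 * (M - 1) + (M - 1) ≤ 2 ^ j * M := by
            obtain ⟨M', rfl⟩ := Nat.exists_eq_add_of_le hM
            have : 8 * M' ≤ 2 ^ j * M' := Nat.mul_le_mul_right _ hJ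
            rw [mul_add, mul_one]
            omega
          omega
        obtain ⟨r, rfl⟩ := Nat.exists_eq_add_of_le hsj
        have h4 : 2 ^ (j + r) = 2 ^ j * 2 ^ r := pow_add _ _ _
        have h5 : 2 ^ r < M := by
          by_contra hcon
          have : 2 ^ j * M ≤ 2 ^ j * 2 ^ r := Nat.mul_le_mul_left _ (by omega)
          omega
        obtain ⟨M', rfl⟩ := Nat.exists_eq_add_of_le h5.le
        have h6 : 1 ≤ M' := by omega
        have h7 : 2 ^ r + M' - t = 2 ^ r + (M' - t) := by omega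
        have h8 : 2 ^ j * (2 ^ r + M') - 1 - 2 ^ (j + r) = 2 ^ j * M' - 1 := by
          rw [mul_add, h4]
          omega
        rw [h7, h8]
        exact ih r (by omega) M' h6
  · rw [Nat.choose_eq_zero_of_lt (by omega)]
    exact dvd_zero _

/-- `y * choose n y = n * choose (n - 1) (y - 1)` in the form of a divisibility -/
lemma dvd_mul_choose (n y : ℕ) : n ∣ y * n.choose y := by
  rcases Nat.eq_zero_or_pos n with rfl | hn
  · rcases Nat.eq_zero_or_pos y with rfl | hy
    · simp
    · rw [Nat.choose_eq_zero_of_lt hy]; simp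
  rcases Nat.eq_zero_or_pos y with rfl | hy
  · simp
  obtain ⟨n, rfl⟩ := Nat.exists_eq_succ_of_ne_zero hn.ne'
  obtain ⟨y, rfl⟩ := Nat.exists_eq_succ_of_ne_zero hy.ne'
  rw [mul_comm, ← Nat.add_one_mul_choose_eq]
  exact Dvd.intro _ rfl

lemma main (j : ℕ) (hj : 3 ≤ j) : S ⊆ K (2 ^ j - 1) := by
  rintro k ⟨q, hq, ⟨m, hm⟩, hq3, rfl⟩
  refine ⟨by omega, fun n h1 h2 => ?_⟩
  have hJ : 8 ≤ 2 ^ j := by
    calc 8 = 2 ^ 3 := by norm_num
      _ ≤ 2 ^ j := Nat.pow_le_pow_right (by norm_num) hj
  rw [Nat.sub_add_cancel (by omega)] at h1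
  have hqodd : q % 2 = 1 := hq.eq_two_or_odd.resolve_left (by omega)
  -- the complementary index
  have hc : (2 ^ j - 1) * n = 2 ^ j * n - n := by rw [Nat.sub_mul, one_mul]
  rw [hc] at h2 ⊢
  have hnJ : 8 * n ≤ 2 ^ j * n := Nat.mul_le_mul_right _ hJ
  have hn0 : 0 < n := by
    rcases Nat.eq_zero_or_pos n with h | h
    · subst h; simp at h1; omega
    · exact h
  have hy : 2 ^ j * n - 2 * q ≤ n := by omega
  have hsymm : n.choose (2 * q - (2 ^ j * n - n)) = n.choose (2 ^ j * n - 2 * q) := by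
    rw [← Nat.choose_symm hy]
    congr 1
    omega
  rw [hsymm]
  have hnq : n < q := by omega
  have hqn : ¬ q ∣ n := fun h => by have := Nat.le_of_dvd hn0 h; omega
  rcases Nat.even_or_odd n with ⟨N, hN⟩ | hodd
  · -- `n = 2 N`
    have hN2 : n = 2 * N := by omega
    subst hN2
    have hx : 2 ^ j * (2 * N) - 2 * q = 2 * (2 ^ j * N - q) := by
      have : 2 ^ j * (2 * N) = 2 * (2 ^ j * N) := by ring
      rw [this]; omega
    rw [hx]
    have hqle : q ≤ 2 ^ j * N := by
      have : 2 ^ j * (2 * N) = 2 * (2 ^ j * N) := by ring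
      omega
    set x := 2 ^ j * N - q with hxdef
    have hN0 : 0 < N := by omega
    -- the exponent is at least `j`
    set e := 2 ^ m with he
    have hje : j ≤ e := by
      by_contra hcon
      have h3 : 2 ^ e * 2 ≤ 2 ^ j := by
        calc 2 ^ e * 2 = 2 ^ (e + 1) := by ring
          _ ≤ 2 ^ j := Nat.pow_le_pow_right (by norm_num) (by omega)
      have h4 : 2 ^ j * (2 * N) = 2 * (2 ^ j * N) := by ring
      have h5 : 2 ^ j + 7 * (N - 1) + (N - 1) ≤ 2 ^ j * N := by
        obtain ⟨N', rfl⟩ := Nat.exists_eq_add_of_le (show 1 ≤ N from hN0)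
        have : 8 * N' ≤ 2 ^ j * N' := Nat.mul_le_mul_right _ hJ
        rw [mul_add, mul_one]
        omega
      omega
    obtain ⟨s, hs⟩ := Nat.exists_eq_add_of_le hje
    have h6 : 2 ^ e = 2 ^ j * 2 ^ s := by rw [hs, pow_add]
    have h7 : 2 ^ s < N := by
      by_contra hcon
      have : 2 ^ j * N ≤ 2 ^ j * 2 ^ s := Nat.mul_le_mul_left _ (by omega)
      omega
    obtain ⟨M, hM⟩ := Nat.exists_eq_add_of_le h7.le
    have hM1 : 1 ≤ M := by omega
    have hxM : x = 2 ^ j * M - 1 := by
      rw [hxdef, hM, hm, h6, mul_add]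
      omega
    have hP : 2 ∣ N.choose x := by
      have := parity j hj 0 (by norm_num) s M hM1
      rwa [Nat.sub_zero, ← hM, ← hxM] at this
    have hP' : 2 ∣ (N - 1).choose x := by
      have := parity j hj 1 le_rfl s M hM1
      have e1 : 2 ^ s + (M - 1) = N - 1 := by omega
      rwa [e1, ← hxM] at this
    have hx1 : 1 ≤ x := by
      have : 8 * M ≤ 2 ^ j * M := Nat.mul_le_mul_right _ hJ
      omega
    have hcop : Nat.Coprime N x := by
      rw [Nat.coprime_iff_gcd_eq_one]
      have h8 : Nat.gcd N x ∣ q := by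
        have h9 : Nat.gcd N x ∣ 2 ^ j * N := Dvd.dvd.mul_left (Nat.gcd_dvd_left _ _) _
        have h10 : Nat.gcd N x ∣ x := Nat.gcd_dvd_right _ _
        have h11 : q = 2 ^ j * N - x := by omega
        rw [h11]
        exact Nat.dvd_sub h9 h10
      rcases (Nat.dvd_prime hq).1 h8 with h | h
      · exact h
      · exfalso
        apply hqn
        rw [← h]
        exact Dvd.dvd.mul_left (Nat.gcd_dvd_left _ _) _
    have : Fact (Nat.Prime 2) := ⟨Nat.prime_two⟩
    rcases Nat.even_or_odd N with hNe | hNo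
    · -- `N` even, `x` odd
      have hxo : x % 2 = 1 := by
        have h12 : (2 ^ j * N) % 2 = 0 := by
          rw [Nat.mul_mod, Nat.even_iff.1 hNe]; simp
        omega
      have hP'' : 2 ∣ (N - 1).choose (x - 1) := by
        have h13 : N.choose x = (N - 1).choose (x - 1) + (N - 1).choose x := by
          obtain ⟨N', hN'⟩ := Nat.exists_eq_succ_of_ne_zero hN0.ne'
          obtain ⟨x', hx'⟩ := Nat.exists_eq_succ_of_ne_zero (show x ≠ 0 by omega)
          rw [hN', hx']
          simp [Nat.choose_succ_succ]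
        rw [h13] at hP
        exact (Nat.dvd_add_iff_left hP').2 hP
      have h14 : 2 ∣ (2 * N - 1).choose (2 * x - 1) := by
        have h15 := Choose.choose_modEq_choose_mod_mul_choose_div_nat (n := 2 * N - 1)
          (k := 2 * x - 1) (p := 2)
        have e1 : (2 * N - 1) / 2 = N - 1 := by omega
        have e2 : (2 * x - 1) / 2 = x - 1 := by omega
        rw [e1, e2] at h15
        exact (Nat.ModEq.dvd_iff h15 (dvd_refl 2)).2 (Dvd.dvd.mul_left hP'' _)
      have h16 : x * (2 * N).choose (2 * x) = N * (2 * N - 1).choose (2 * x - 1) := by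
        obtain ⟨N', hN'⟩ : ∃ N', 2 * N = N' + 1 := ⟨2 * N - 1, by omega⟩
        obtain ⟨x', hx'⟩ : ∃ x', 2 * x = x' + 1 := ⟨2 * x - 1, by omega⟩
        have h17 := Nat.add_one_mul_choose_eq N' x'
        rw [← hN', ← hx'] at h17
        have e3 : 2 * N - 1 = N' := by omega
        have e4 : 2 * x - 1 = x' := by omega
        rw [e3, e4]
        have h18 : 2 * (x * (2 * N).choose (2 * x)) = 2 * (N * N'.choose x') := by
          calc 2 * (x * (2 * N).choose (2 * x)) = (2 * N).choose (2 * x) * (2 * x) := by ring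
            _ = 2 * N * N'.choose x' := h17.symm
            _ = 2 * (N * N'.choose x') := by ring
        omega
      have h19 : 2 * N ∣ x * (2 * N).choose (2 * x) := by
        have h26 : N * 2 ∣ N * (2 * N - 1).choose (2 * x - 1) := Nat.mul_dvd_mul_left _ h14
        rw [h16]
        rwa [mul_comm N 2] at h26
      have h20 : Nat.Coprime (2 * N) x := by
        rw [Nat.coprime_mul_iff_left]
        exact ⟨(Nat.coprime_two_left).2 (Nat.odd_iff.2 hxo), hcop⟩
      exact h20.dvd_of_dvd_mul_left h19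
    · -- `N` odd
      have h21 : 2 ∣ (2 * N).choose (2 * x) := by
        have h15 := Choose.choose_modEq_choose_mod_mul_choose_div_nat (n := 2 * N)
          (k := 2 * x) (p := 2)
        have e1 : (2 * N) / 2 = N := by omega
        have e2 : (2 * x) / 2 = x := by omega
        rw [e1, e2] at h15
        exact (Nat.ModEq.dvd_iff h15 (dvd_refl 2)).2 (Dvd.dvd.mul_left hP _)
      have h22 : N ∣ (2 * N).choose (2 * x) := by
        have h23 := dvd_mul_choose (2 * N) (2 * x)
        have h24 : N ∣ x * (2 * N).choose (2 * x) := by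
          have h25 : 2 * N ∣ 2 * (x * (2 * N).choose (2 * x)) := by
            rw [← mul_assoc]; exact h23
          exact Nat.dvd_of_mul_dvd_mul_left (by norm_num) h25
        exact hcop.dvd_of_dvd_mul_left h24
      exact Nat.Coprime.mul_dvd_of_dvd_of_dvd ((Nat.coprime_two_left).2 hNo) h21 h22
  · -- `n` odd
    have hcop : Nat.Coprime n (2 ^ j * n - 2 * q) := by
      rw [Nat.coprime_iff_gcd_eq_one]
      by_contra hne
      obtain ⟨p, hp, hpd⟩ := Nat.exists_prime_and_dvd hne
      have h3 : p ∣ n := hpd.trans (Nat.gcd_dvd_left _ _)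
      have h4 : p ∣ 2 ^ j * n - 2 * q := hpd.trans (Nat.gcd_dvd_right _ _)
      have h5 : p ∣ 2 * q := by
        have h6 : 2 * q = 2 ^ j * n - (2 ^ j * n - 2 * q) := by omega
        rw [h6]
        exact Nat.dvd_sub (Dvd.dvd.mul_left h3 _) h4
      rcases (Nat.Prime.dvd_mul hp).1 h5 with h | h
      · have h7 : p = 2 := (Nat.prime_dvd_prime_iff_eq hp Nat.prime_two).1 h
        rw [h7] at h3
        exact (Nat.not_even_iff_odd.2 hodd) (even_iff_two_dvd.2 h3)
      · have h7 : p = q := (Nat.prime_dvd_prime_iff_eq hp hq).1 h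
        rw [h7] at h3
        exact hqn h3
    exact hcop.dvd_of_dvd_mul_left (dvd_mul_choose _ _)

/-- There are infinitely many integers `c ≥ 2` with `S ⊆ K_c`. -/
theorem result : {c : ℕ | 2 ≤ c ∧ S ⊆ K c}.Infinite := by
  apply Set.infinite_of_injective_forall_mem (f := fun i : ℕ => 2 ^ (i + 3) - 1)
  · intro a b h
    simp only at h
    have ha : 1 ≤ 2 ^ (a + 3) := Nat.one_le_two_pow
    have hb : 1 ≤ 2 ^ (b + 3) := Nat.one_le_two_pow
    have h1 : 2 ^ (a + 3) = 2 ^ (b + 3) := by omega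
    have := Nat.pow_right_injective le_rfl h1
    omega
  · intro i
    refine ⟨?_, main (i + 3) (by omega)⟩
    have : 2 ^ 3 ≤ 2 ^ (i + 3) := Nat.pow_le_pow_right (by norm_num) (by omega)
    omega

end Pool.Agent.Results.MP_82795f_nt.InfinitelyManyC
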