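import Mathlib

/-!
# Twice Fermat primes and the sets `K_c` of Harborth: multiples of three

The number `514 = 2 * 257` is in `S` and is not in `K_12`.  So it is not true that `S ⊆ K_c` for every
positive integer `c` divisible by `3`.
-/

set_option autoImplicit false

namespace Pool.Agent.Results.MP_82795f_nt.MultiplesOfThree

/-- The set `K_c`: the positive integers `k` such that `n` divides `choose n (k - c n)` for every
integer `n` with `k / (c + 1) ≤ n ≤ k / c`. -/
def K (c : ℕ) : Set ℕ :=
  {k | 0 < k ∧ ∀ n : ℕ, k ≤ (c + 1) * n → c * n ≤ k → n ∣ n.choose (k - c * n)}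

/-- The set `S` of the numbers `2 q`, where `q > 3` is a Fermat prime. -/
def S : Set ℕ := {k | ∃ q : ℕ, q.Prime ∧ (∃ m : ℕ, q = 2 ^ 2 ^ m + 1) ∧ 3 < q ∧ k = 2 * q}

/-- `S ⊆ K_c` does not hold for every positive multiple `c` of `3`: the element `2 * 257` of `S` is not
in `K_c` for `c = 12, 18, 36, 42`. -/
theorem result : (¬ ∀ c : ℕ, 0 < c → 3 ∣ c → S ⊆ K c) ∧
    2 * 257 ∈ S ∧ ∀ c ∈ ({12, 18, 36, 42} : Finset ℕ), 2 * 257 ∉ K c := by
  have hS : 2 * 257 ∈ S := ⟨257, by norm_num, ⟨3, by norm_num⟩, by norm_num, rfl⟩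
  have hK : ∀ c ∈ ({12, 18, 36, 42} : Finset ℕ), 2 * 257 ∉ K c := by
    intro c hc hk
    simp only [Finset.mem_insert, Finset.mem_singleton] at hc
    rcases hc with rfl | rfl | rfl | rfl
    · have h := hk.2 42 (by norm_num) (by norm_num)
      revert h
      decide +kernel
    · have h := hk.2 28 (by norm_num) (by norm_num)
      revert h
      decide +kernel
    · have h := hk.2 14 (by norm_num) (by norm_num)
      revert h
      decide +kernel
    · have h := hk.2 12 (by norm_num) (by norm_num)
      revert h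
      decide +kernel
  exact ⟨fun h => hK 12 (by simp) (h 12 (by norm_num) (by norm_num) hS), hS, hK⟩

end Pool.Agent.Results.MP_82795f_nt.MultiplesOfThree
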